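import Pool.Agent.U296.ST.Fin

/-!
# The number of all triples `(n, q, r)` with a Steiner system

Let `T(X)` be the number of the triples `X ≥ n ≥ q ≥ r ≥ 1` for which a Steiner system `S(n, q, r)`
exists. The trivial triples (`q = r` or `q = n`) contribute exactly `X²`. A nontrivial triple must
satisfy the divisibility condition (D) and Tits' inequality `n ≥ (r + 1) (q - r + 1)`; call it
admissible then. The number of the admissible triples is asymptotic to `X² / (4 log X)`, and
almost all of them are of the form `(r + p, r + 1, r)` with a prime `p > r + 1`: there are only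
`O(X² (log log X)³ / (log X)²)` others. So `X² ≤ T(X) ≤ X² + (1/4 + o(1)) X² / log X`.

Proof. Let `d = q - r`, `m = n - r`. By the prime power criterion for (D)
(`Pool.Agent.R60.Steiner`) the residue of `m` modulo every prime `p ≤ r` is at least that of `d`,
and `d + 1` divides `m + 1`. For `d = 1` all prime factors of `m` exceed `r + 1`, so `m` is a prime
or `r ≤ √X`; the primes are counted by the prime number theorem. The triples with
`d > (log X)²` are few by the divisibility `d + 1 ∣ m + 1`, and for `2 ≤ d ≤ (log X)²` neither `m`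
nor `m - 1` has a prime factor between `d` and `X^(1/8)` (if `r` is not small), which is
controlled by Selberg's sieve of dimension two (`Pool.Agent.Cov.sieve_general`).
-/

set_option autoImplicit false
open Finset Filter Topology

namespace Pool.Agent.Results.MP_409a13_co.AllTriples

/-- A Steiner system `S(n, q, r)` exists: a family of `q`-element subsets (blocks) of an
`n`-element set such that each `r`-element subset lies in exactly one block. -/
def HasSteiner (n q r : ℕ) : Prop := ∃ B : Finset (Finset (Fin n)), (∀ b ∈ B, b.card = q) ∧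
  ∀ s : Finset (Fin n), s.card = r → ∃! b, b ∈ B ∧ s ⊆ b

/-- The divisibility condition (D). -/
def DivCond (n q r : ℕ) : Prop := ∀ i < r, (q - i).choose (r - i) ∣ (n - i).choose (r - i)

/-- `(n, q, r)` is nontrivial (`1 ≤ r < q < n`) and satisfies the condition (D) and Tits'
inequality `n ≥ (r + 1) (q - r + 1)`. -/
def Admissible (n q r : ℕ) : Prop :=
  1 ≤ r ∧ r < q ∧ q < n ∧ DivCond n q r ∧ (r + 1) * (q - r + 1) ≤ n

/-- `(n, q, r) = (r + p, r + 1, r)` with a prime `p > r + 1`. -/
def PrimeClass (n q r : ℕ) : Prop := q = r + 1 ∧ (n - r).Prime ∧ q < n - r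

/-- The number of the triples `(n, q, r)` with `1 ≤ r ≤ q ≤ n ≤ X` and the property `P`. -/
noncomputable def number (P : ℕ → ℕ → ℕ → Prop) (X : ℕ) : ℕ :=
  {t : ℕ × ℕ × ℕ | 1 ≤ t.2.2 ∧ t.2.2 ≤ t.2.1 ∧ t.2.1 ≤ t.1 ∧ t.1 ≤ X ∧ P t.1 t.2.1 t.2.2}.ncard

/-- The number of the triples `(n, q, r)`, `n ≤ X`, for which a Steiner system exists is between
`X²` (the number of the trivial triples) and `X²` plus the number of the admissible triples; the
number of the admissible triples is asymptotic to `X² / (4 log X)`; all triples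
`(r + p, r + 1, r)`, `p > r + 1` prime, are admissible, and the number of all other admissible
triples is `O(X² (log log X)³ / (log X)²)`. -/
theorem result :
    (∀ X : ℕ, number (fun n q r => q = r ∨ q = n) X = X ^ 2 ∧
      X ^ 2 ≤ number HasSteiner X ∧ number HasSteiner X ≤ X ^ 2 + number Admissible X) ∧
    Tendsto (fun X : ℕ => (number Admissible X : ℝ) * Real.log X / (X : ℝ) ^ 2) atTop
      (𝓝 (1 / 4)) ∧
    (∀ n q r : ℕ, 1 ≤ r → PrimeClass n q r → Admissible n q r) ∧
    ∃ C : ℝ, ∃ X₀ : ℕ, ∀ X : ℕ, X₀ ≤ X →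
      (number (fun n q r => Admissible n q r ∧ ¬ PrimeClass n q r) X : ℝ) ≤
        C * (X : ℝ) ^ 2 * Real.log (Real.log X) ^ 3 / Real.log X ^ 2 := by
  refine ⟨fun X => ⟨Pool.Agent.U296.ST.num_triv X, Pool.Agent.U296.ST.partA X⟩,
    Pool.Agent.U296.ST.opn_asymp, ?_, ?_⟩
  · rintro n q r h1 ⟨h2, h3, h4⟩
    have h5 := Pool.Agent.U296.ST.opn_main (r := r) (p := n - r) h1 h3 (by omega)
    rw [show r + (n - r) = n by omega, ← h2] at h5
    exact h5
  · obtain ⟨C, -, X₀, h⟩ := Pool.Agent.U296.ST.rest_bound
    exact ⟨C, X₀, h⟩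

end Pool.Agent.Results.MP_409a13_co.AllTriples
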