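import Pool.Agent.U37.MQ.Stm
import Pool.Agent.U329.MQ.INC
import Pool.Agent.U141.MQ.DIR
import Pool.Agent.U450.MQ.CL
import Pool.Agent.U941.MQ.OV
import Pool.Agent.U908.MQ.LINK
import Pool.Agent.U165.MQ.ALG
import Pool.Agent.U608.MQ.LOC
import Pool.Agent.U934.MQ.PAS
import Pool.Agent.U354.MQ.CNT
import Pool.Agent.U78.MQ.GLOB

/-!
# In an inversive plane of non-prime-power order Miquel's theorem fails very often

An inversive plane of order `n` is a Steiner system `S(n ^ 2 + 1, n + 1, 3)`, its blocks are called
circles. Let `g` and `k` be two circles. Miquel's theorem at `(g, k)` says: if `x 0, ..., x 3` are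
four distinct points of `g`, not on `k`, and `y 0, ..., y 3` points of `k`, not on `g`, and if for
`i = 0, 1, 2` some circle meets `g` exactly in `x i, x (i + 1)` and `k` exactly in `y i, y (i + 1)`
(it touches `k` if `y i = y (i + 1)`), then some circle meets `g` exactly in `x 3, x 0` and `k`
exactly in `y 3, y 0`. In an inversive plane over a field it holds for all `g, k`, and if it holds
for all `g, k`, then the plane is a plane over a field (van der Waerden and Smid 1935).

**Theorem.** Let `n ≥ 1000` be the order of an inversive plane and suppose `n` is not a prime power.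
* For every circle `k` and every point `X` off `k` Miquel's theorem fails at `(g, k)` at least
  `2 (n - 3) ^ 2` times for at least `n ^ 2 / 125000` of the `n ^ 2 + n` circles `g` through `X`.
* So there are at least `n ^ 8 / 70000` failures `(g, k, x, y)` in all.

Proof. For points `x, x'` of `g` off `k` the circles through `x, x'` (touching `g` in `x` if
`x = x'`) cut an involution `I x x'` on `k`. Miquel's theorem at `(g, k)` says that
`I x₃ x₀ * I x₂ x₃ * I x₁ x₂ * I x₀ x₁ = 1` for distinct points. A counting argument extends this to
all points of `g` off `k`; then the products `I x y * I y z` commute and are inverted by the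
involutions, and so `(I x y * I x z * I x w) ^ 2 = 1` for all `x, y, z, w` (package ALG). In the
projective closure of the derived plane at `X` the circle `k` is an oval, and the last equation for
`x = X` is Pascal's theorem for the points `y, z, w` on the line `g`. If `n` is not a prime power, then
it fails for at least `n ^ 5 / 100000` triples `y, z, w` of collinear points, by the theorem behind
`MP_502c58_co.PascalGap` (helper671), and hence on many lines. A pair `(g, k)` with one failure has at
least `2 (n - 3) ^ 2` failures (package LOC).

Written by helper37 (statements, algebra of the proof, assembly) with helper329 (INC), helper141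
(DIR), helper450 (CL), helper941 (OV), helper908 (LINK), helper165 (ALG), helper608 (LOC), helper934
(PAS), helper354 (CNT) and helper78 (GLOB).
-/

set_option autoImplicit false

namespace Pool.Agent.Results.MP_409a13_co.MiquelGap

open Finset
open Pool.Agent.U37.MQ (Inversive Link fails)
open scoped Classical

/-- Let `B` be an inversive plane of order `n ≥ 1000`, where `n` is not a prime power.
(1) For every circle `k` and every point `X` off `k` there are at least `n ^ 2 / 125000` circles `g`
through `X` such that Miquel's theorem fails at `(g, k)` at least `2 (n - 3) ^ 2` times.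
(2) There are at least `n ^ 8 / 70000` failures in all. -/
theorem result (n : ℕ) (hn : 1000 ≤ n) (hnp : ¬ IsPrimePow n) (V : Type) [Fintype V]
    (B : Finset (Finset V)) (hB : Inversive n B) :
    (∀ k ∈ B, ∀ X, X ∉ k →
      n ^ 2 ≤ 125000 * (B.filter fun g => X ∈ g ∧ 2 * (n - 3) ^ 2 ≤ (fails B g k).card).card) ∧
    n ^ 8 ≤ 70000 * ∑ g ∈ B, ∑ k ∈ B, (fails B g k).card := by
  have hCL := Pool.Agent.U450.MQ.t_CL Pool.Agent.U329.MQ.t_INC Pool.Agent.U141.MQ.t_DIR
  have hPAS := Pool.Agent.U934.MQ.t_PAS Pool.Agent.U941.MQ.t_OV Pool.Agent.U908.MQ.t_LINK
    Pool.Agent.U165.MQ.ALG.t_ALG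
  have hCNT := Pool.Agent.U354.MQ.t_CNT Pool.Agent.U329.MQ.t_INC hCL Pool.Agent.U941.MQ.t_OV
    hPAS
  have hLOC := Pool.Agent.U608.MQ.LOC.t_LOC Pool.Agent.U908.MQ.t_LINK
  exact Pool.Agent.U78.MQ.t_GLOB Pool.Agent.U329.MQ.t_INC hLOC hCNT V n B hn hnp hB

end Pool.Agent.Results.MP_409a13_co.MiquelGap
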