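import Pool.Agent.U671.ST.Steiner
import Pool.Agent.U671.ST.Plane

/-!
# The blocks of every Steiner system are as complicated as arbitrary sets

Let `B` be the set of blocks of a Steiner system `S(n, q, r)`, `2 ≤ r < q < n`. We put its points at
points of `ℝ^d` in any way and ask how complicated the blocks are: the complexity of a semialgebraic
set is the least possible sum of the degrees of polynomials describing it.

(1) If all blocks have complexity at most `D`, then `q ≤ C D ^ d`, where `C` depends on `d` only.
Errors are allowed: it is enough that the sets describe the blocks up to a small proportion of the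
incidences.

(2) Up to the constant this is the complexity of arbitrary sets with `q` elements: every Steiner
system has a placement at distinct points with `D ^ d ≤ (2 d) ^ d q`. So for given `D` the class of
the Steiner systems with blocks of complexity at most `D` contains all Steiner systems with
`q ≤ (D / (2 d)) ^ d`, and none with `C D ^ d < q < n`, `2 ≤ r < q`.

(3) The same holds for algebraic descriptions over fields `F` of characteristic zero: if the points
are placed in `F^d` and the blocks are cut out by Boolean combinations of polynomial equations with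
sum of the degrees at most `D`, then `q ≤ C D ^ (2 d)`.

(4) In positive characteristic there is no such bound: the classical projective planes over finite
fields `K` have linear blocks in `K ^ 3` (this is well known and only stated for comparison).

(5) Weak correlation: if for at least `ρ |B|` of the blocks some semialgebraic set of complexity at
most `D` contains at most `M` points, but at least `ε q` points of the block, then `q ≤ C θ ^ d` or
`ρ ε n ≤ C M θ ^ d`, `θ = D / (ρ ε ^ 2)`; hence `ρ ε q ≤ C a θ ^ d` if `M = a q` and `2 r ≤ q`.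

For `r = 2` this contains projective planes (`q - 1` the order).

Proof of (1). Polynomial partitioning (Guth and Katz, starting library `R98/EQ`) gives about
`c q` parts, each block cuts few of them. As `n ≥ 2 q` (Tits), every pair of points in the same part
is separated by at least half of the blocks through its first point; so most incidences must be in
parts cut by the block, and this contradicts the Cauchy-Schwarz inequality together with
`lam n ≤ r_1 q` (`r_1` and `lam`: numbers of the blocks through one and two points). For (3):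
countable domains of characteristic zero embed into `ℂ`, and real and imaginary parts.
-/

set_option autoImplicit false

namespace Pool.Agent.Results.MP_409a13_co.SimpleBlocks

open MvPolynomial Finset Pool.Agent.U671.VS Pool.Agent.U671.ST

open scoped Classical

/-- Let `d ≥ 1`. There is `C ≥ 1` such that the following holds for every Steiner system
`S(n, q, r)` with set of blocks `B` and `2 ≤ r < q < n`.

1. If for some placement of the points in `ℝ^d` the blocks `b` are described by semialgebraic sets `S b`
of complexity at most `D`, with at most `|B| q / C` errors in total, then `q ≤ C D ^ d`.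
2. There is a placement at distinct points for which all blocks are cut out by zero sets of
polynomials of degree at most `D`, for some `D` with `D ^ d ≤ (2 d) ^ d q`.
3. If for some placement of the points in `F^d`, `F` a field of characteristic zero, the blocks are
described by constructible sets of complexity at most `D`, with at most `|B| q / C` errors in total,
then `q ≤ C D ^ (2 d)`.
5. If for at least `ρ |B|` of the blocks there is a semialgebraic set of complexity at most `D` with at
most `M` of the points, but at least `ε q` of the points of the block, then `q ≤ C θ ^ d` or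
`ρ ε n ≤ C M θ ^ d`, where `θ = D / (ρ ε ^ 2)`. If moreover `2 r ≤ q` and `M = a q`, `a ≥ 1`, then
`ρ ε q ≤ C a θ ^ d`.

4. There is no bound as in 3 in positive characteristic: for every finite field `K` with `k` elements
there is a Steiner system `S(k ^ 2 + k + 1, k + 1, 2)` whose points can be placed at distinct points of
`K ^ 3` such that every block is cut out by one polynomial of degree at most one. -/
theorem result (d : ℕ) (hd : 1 ≤ d) : (∃ C : ℕ, 1 ≤ C ∧
    ∀ (n q r : ℕ) (B : Finset (Finset (Fin n))), IsSteiner n q r B → 2 ≤ r → r < q → q < n →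
      -- (1)
      (∀ (D : ℕ) (p : Fin n → Fin d → ℝ) (S : Finset (Fin n) → Set (Fin d → ℝ)), 1 ≤ D →
        (∀ b ∈ B, SemiAlg d D (S b)) → C * ∑ b ∈ B, errors p b (S b) ≤ B.card * q →
        q ≤ C * D ^ d) ∧
      -- (2)
      (∃ (p : Fin n → Fin d → ℝ) (D : ℕ), Function.Injective p ∧ D ^ d ≤ (2 * d) ^ d * q ∧
        ∀ b ∈ B, ∃ g : MvPolynomial (Fin d) ℝ, g.totalDegree ≤ D ∧
          ∀ i, eval (p i) g = 0 ↔ i ∈ b) ∧
      -- (3)
      (∀ (F : Type) [Field F] [CharZero F] (D : ℕ) (p : Fin n → Fin d → F)
        (S : Finset (Fin n) → Set (Fin d → F)), 1 ≤ D →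
        (∀ b ∈ B, Constructible F d D (S b)) → C * ∑ b ∈ B, errors p b (S b) ≤ B.card * q →
        q ≤ C * D ^ (2 * d)) ∧
      -- (5)
      (∀ (p : Fin n → Fin d → ℝ) (D : ℕ) (ρ ε : ℝ), 1 ≤ D → 0 < ρ → ρ ≤ 1 → 0 < ε → ε ≤ 1 →
        (∀ M : ℝ, CorrelatesWith B p D M ρ ε →
          (q : ℝ) ≤ C * (D / (ρ * ε ^ 2)) ^ d ∨
            ρ * ε * n ≤ C * M * (D / (ρ * ε ^ 2)) ^ d) ∧
        (∀ a : ℝ, 1 ≤ a → 2 * r ≤ q → CorrelatesWith B p D (a * q) ρ ε →
          ρ * ε * q ≤ C * a * (D / (ρ * ε ^ 2)) ^ d))) ∧
    -- (4)
    (∀ (K : Type) [Field K] [Fintype K] (n : ℕ), n = Fintype.card K ^ 2 + Fintype.card K + 1 →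
      ∃ (B : Finset (Finset (Fin n))) (p : Fin n → Fin 3 → K),
        IsSteiner n (Fintype.card K + 1) 2 B ∧ Function.Injective p ∧
        ∀ b ∈ B, ∃ g : MvPolynomial (Fin 3) K, g.totalDegree ≤ 1 ∧
          ∀ i, eval (p i) g = 0 ↔ i ∈ b) := by
  refine ⟨?_, fun K _ _ n hn => plane K n hn⟩
  obtain ⟨C1, hC1, h1⟩ := steiner_bound d hd
  obtain ⟨C3, hC3, h3⟩ := steiner_bound_alg d hd
  obtain ⟨C5, hC5, h5⟩ := correlation d hd
  obtain ⟨C6, hC6⟩ := exists_nat_ge (4 * C5)
  refine ⟨C1 + C3 + C6, by omega, ?_⟩
  intro n q r B hB hr hrq hqn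
  have hCC5 : 4 * C5 ≤ ((C1 + C3 + C6 : ℕ) : ℝ) := by
    push_cast
    have e1 : (0 : ℝ) ≤ C1 := Nat.cast_nonneg _
    have e2 : (0 : ℝ) ≤ C3 := Nat.cast_nonneg _
    linarith
  set C : ℕ := C1 + C3 + C6 with hC
  refine ⟨?_, ?_, ?_, ?_⟩
  · intro D p S hD hS hE
    have h6 := h1 n q r B hB hr hrq hqn D p S hD hS
      ((Nat.mul_le_mul_right _ (by omega : C1 ≤ C)).trans hE)
    exact h6.trans (Nat.mul_le_mul_right _ (by omega))
  · obtain ⟨x, D, hx, hD, h6⟩ := Pool.Agent.U671.SD.sharp d n q hd
    exact ⟨x, D, hx, hD, fun b hb => h6 b (hB.1 b hb).le⟩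
  · intro F _ _ D p S hD hS hE
    have h6 := h3 n q r B hB hr hrq hqn F D p S hD hS
      ((Nat.mul_le_mul_right _ (by omega : C3 ≤ C)).trans hE)
    exact h6.trans (Nat.mul_le_mul_right _ (by omega))
  · intro p D ρ ε hD hρ hρ1 hε hε1
    have hρε : 0 < ρ * ε := mul_pos hρ hε
    have hρε1 : ρ * ε ≤ 1 := mul_le_one₀ hρ1 hε.le hε1
    have hx0 : (0 : ℝ) ≤ (D / (ρ * ε ^ 2)) ^ d := by positivity
    have hq0 : (0 : ℝ) < q := by exact_mod_cast (by omega : 0 < q)
    have hn0 : (0 : ℝ) < n := by exact_mod_cast (by omega : 0 < n)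
    refine ⟨?_, ?_⟩
    · intro M hcor
      rcases h5 n q r B hB hr hrq hqn p D M ρ ε hD hρ hρ1 hε hε1 hcor with h6 | h6
      · exact Or.inl (h6.trans (mul_le_mul_of_nonneg_right (by linarith) hx0))
      · right
        have hpos : 0 < ρ * ε * (n : ℝ) := mul_pos hρε hn0
        have hMθ : 0 < M * (D / (ρ * ε ^ 2)) ^ d := by
          have h7 : 0 < C5 * (M * (D / (ρ * ε ^ 2)) ^ d) := by linarith
          exact pos_of_mul_pos_right h7 (by linarith)
        calc ρ * ε * (n : ℝ) ≤ C5 * (M * (D / (ρ * ε ^ 2)) ^ d) := by linarith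
          _ ≤ C * (M * (D / (ρ * ε ^ 2)) ^ d) :=
            mul_le_mul_of_nonneg_right (by linarith) hMθ.le
          _ = _ := by ring
    · intro a ha h2r hcor
      have hax : 0 ≤ a * (D / (ρ * ε ^ 2)) ^ d := by positivity
      have hfin : ρ * ε * (q : ℝ) ≤ 4 * C5 * (a * (D / (ρ * ε ^ 2)) ^ d) := by
        rcases h5 n q r B hB hr hrq hqn p D (a * q) ρ ε hD hρ hρ1 hε hε1 hcor with h6 | h6
        · calc ρ * ε * (q : ℝ) ≤ 1 * q := mul_le_mul_of_nonneg_right hρε1 hq0.le
            _ ≤ C5 * (1 * (D / (ρ * ε ^ 2)) ^ d) := by linarith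
            _ ≤ C5 * (a * (D / (ρ * ε ^ 2)) ^ d) := by gcongr
            _ ≤ 4 * C5 * (a * (D / (ρ * ε ^ 2)) ^ d) := by nlinarith
        · obtain ⟨t, rfl⟩ : ∃ t, r = t + 2 := ⟨r - 2, by omega⟩
          have h7 := steiner_fisher B hB hrq.le hqn
          have h8 : q * q ≤ 4 * n := by
            obtain ⟨u, rfl⟩ : ∃ u, q = 2 * (t + 2) + u := ⟨q - 2 * (t + 2), by omega⟩
            have e1 : 2 * (t + 2) + u - t = t + 4 + u := by omega
            have e2 : t + 4 + u - 1 = t + 3 + u := by omega
            rw [e1, e2] at h7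
            have h9 : (t + 4 + u) * (t + 3 + u) + 1 ≤ n := h7.trans (Nat.sub_le _ _)
            nlinarith
          have h9 : (q : ℝ) * q ≤ 4 * (n : ℝ) := by exact_mod_cast h8
          have h10 : (q : ℝ) * (ρ * ε * q) ≤
              q * (4 * C5 * (a * (D / (ρ * ε ^ 2)) ^ d)) := by
            calc (q : ℝ) * (ρ * ε * q) = ρ * ε * (q * q) := by ring
              _ ≤ ρ * ε * (4 * (n : ℝ)) := mul_le_mul_of_nonneg_left h9 hρε.le
              _ = 4 * (ρ * ε * (n : ℝ)) := by ring
              _ ≤ 4 * (C5 * (a * q) * (D / (ρ * ε ^ 2)) ^ d) := by linarith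
              _ = _ := by ring
          exact le_of_mul_le_mul_left h10 hq0
      calc ρ * ε * (q : ℝ) ≤ 4 * C5 * (a * (D / (ρ * ε ^ 2)) ^ d) := hfin
        _ ≤ C * (a * (D / (ρ * ε ^ 2)) ^ d) := mul_le_mul_of_nonneg_right hCC5 hax
        _ = _ := by ring

end Pool.Agent.Results.MP_409a13_co.SimpleBlocks
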