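import Pool.Agent.U344.ToSteiner
import Pool.Agent.U344.KM166
import Pool.Agent.U344.KM231
import Pool.Agent.U344.KM256
import Pool.Agent.U344.KM261
import Pool.Agent.U344.KM286
import Pool.Agent.U344.KM321
import Pool.Agent.U344.KM471
import Pool.Agent.U344.KM561
import Pool.Agent.U344.KM591
import Pool.Agent.U344.KM616
import Pool.Agent.U344.KM651

/-!
Steiner systems `S(v,6,2)` for eleven orders `v` that were open.
-/

set_option autoImplicit false

namespace Pool.Agent.Results.MP_409a13_co.SixBlocksOpenOrders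

/-- For each of the listed `v` there is a family of `6`-subsets of a set of `v` points such
that every `2`-subset lies in exactly one member: a Steiner system `S(v,6,2)`. -/
theorem result : ∀ v ∈ ({166, 231, 256, 261, 286, 321, 471, 561, 591, 616, 651} : Finset ℕ),
    ∃ B : Finset (Finset (Fin v)), (∀ b ∈ B, b.card = 6) ∧
      ∀ T : Finset (Fin v), T.card = 2 → ∃! b, b ∈ B ∧ T ⊆ b := by
  intro v hv
  simp only [Finset.mem_insert, Finset.mem_singleton] at hv
  rcases hv with rfl | rfl | rfl | rfl | rfl | rfl | rfl | rfl | rfl | rfl | rfl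
  · exact Pool.Agent.U344.toSteiner Pool.Agent.U344.KM.ex166
  · exact Pool.Agent.U344.toSteiner Pool.Agent.U344.KM.ex231
  · exact Pool.Agent.U344.toSteiner Pool.Agent.U344.KM.ex256
  · exact Pool.Agent.U344.toSteiner Pool.Agent.U344.KM.ex261
  · exact Pool.Agent.U344.toSteiner Pool.Agent.U344.KM.ex286
  · exact Pool.Agent.U344.toSteiner Pool.Agent.U344.KM.ex321
  · exact Pool.Agent.U344.toSteiner Pool.Agent.U344.KM.ex471
  · exact Pool.Agent.U344.toSteiner Pool.Agent.U344.KM.ex561
  · exact Pool.Agent.U344.toSteiner Pool.Agent.U344.KM.ex591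
  · exact Pool.Agent.U344.toSteiner Pool.Agent.U344.KM.ex616
  · exact Pool.Agent.U344.toSteiner Pool.Agent.U344.KM.ex651

end Pool.Agent.Results.MP_409a13_co.SixBlocksOpenOrders
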